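import Mathlib

set_option autoImplicit false

/-!
# Cancellation of modules with unit-regular endomorphism ring, and left ideals of idempotents
-/

namespace Pool.Agent.MP_5ac330_al.OE

variable {R : Type*} [Ring R]

section split

variable {M P : Type*} [AddCommGroup M] [AddCommGroup P] [Module R M] [Module R P]

/-- a split surjection -/
theorem split (f : M →ₗ[R] P) (s : P →ₗ[R] M) (h : ∀ w, f (s w) = w) :
    Nonempty (M ≃ₗ[R] LinearMap.ker f × P) := by
  refine ⟨LinearEquiv.ofLinearMap
    (LinearMap.prod (LinearMap.codRestrict (LinearMap.ker f) (LinearMap.id - s ∘ₗ f) ?_) f)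
    (LinearMap.coprod (Submodule.subtype _) s) ?_ ?_⟩
  · intro m
    simp [h]
  · apply LinearMap.ext
    rintro ⟨⟨k, hk⟩, w⟩
    have hk' : f k = 0 := hk
    ext
    · simp [h, hk']
    · simp [h, hk']
  · apply LinearMap.ext
    intro m
    simp

end split

/-- every endomorphism is unit-regular -/
def UREnd (R : Type*) [Ring R] (C : Type*) [AddCommGroup C] [Module R C] : Prop :=
  ∀ d : C →ₗ[R] C, ∃ u : C ≃ₗ[R] C, ∀ c, d (u (d c)) = d c

/-- **Evans' cancellation theorem** for modules with unit-regular endomorphism ring. -/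
theorem cancel {C : Type*} [AddCommGroup C] [Module R C] (hC : UREnd R C)
    {X Y : Type*} [AddCommGroup X] [AddCommGroup Y] [Module R X] [Module R Y]
    (φ : (X × C) ≃ₗ[R] (Y × C)) : Nonempty (X ≃ₗ[R] Y) := by
  set d : C →ₗ[R] C := LinearMap.snd R Y C ∘ₗ φ.toLinearMap ∘ₗ LinearMap.inr R X C with hd
  set g : X →ₗ[R] C := LinearMap.snd R Y C ∘ₗ φ.toLinearMap ∘ₗ LinearMap.inl R X C with hg
  set b : C →ₗ[R] X := LinearMap.fst R X C ∘ₗ φ.symm.toLinearMap ∘ₗ LinearMap.inr R Y C with hb
  set d' : C →ₗ[R] C := LinearMap.snd R X C ∘ₗ φ.symm.toLinearMap ∘ₗ LinearMap.inr R Y C with hd'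
  have hsum : ∀ c, g (b c) + d (d' c) = c := by
    intro c
    have h1 : φ ((b c, 0) + (0, d' c)) = (0, c) := by
      have : ((b c, 0) + (0, d' c) : X × C) = φ.symm (0, c) := by
        ext
        · simp [hb]
        · simp [hd']
      rw [this, LinearEquiv.apply_symm_apply]
    have h2 := congrArg Prod.snd h1
    rw [map_add] at h2
    simpa [hg, hd] using h2
  have hsplit : ∀ x c, (φ (x, c)).2 = g x + d c := by
    intro x c
    have : ((x, c) : X × C) = (x, 0) + (0, c) := by simp
    rw [this, map_add]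
    simp [hg, hd]
  obtain ⟨u, hu⟩ := hC d
  -- the idempotent e = d u
  set e : C → C := fun c => d (u c) with he
  have hee : ∀ c, e (e c) = e c := fun c => hu (u c)
  -- shift
  set s : C →ₗ[R] X := b ∘ₗ (LinearMap.id - d ∘ₗ u.toLinearMap) ∘ₗ u.symm.toLinearMap with hs
  set V : C →ₗ[R] C := g ∘ₗ s + d with hV
  -- nilpotent part
  set n : C →ₗ[R] C := (d ∘ₗ u.toLinearMap) ∘ₗ (g ∘ₗ b) ∘ₗ
    (LinearMap.id - d ∘ₗ u.toLinearMap) with hn
  have hVn : ∀ c, V (u c) = c + n c := by
    intro c
    have h1 := hsum (c - d (u c))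
    have h2 : g (b (c - d (u c))) = (c - d (u c)) - d (d' (c - d (u c))) := eq_sub_of_add_eq h1
    simp only [hV, hs, hn, LinearMap.add_apply, LinearMap.comp_apply, LinearEquiv.coe_coe,
      LinearEquiv.symm_apply_apply, LinearMap.sub_apply, LinearMap.id_apply]
    rw [h2]
    have h3 : d (u ((c - d (u c)) - d (d' (c - d (u c))))) = - d (d' (c - d (u c))) := by
      rw [map_sub, map_sub, map_sub, map_sub, hu (u c), hu]
      simp
    rw [h3]
    abel
  have hnn : ∀ c, n (n c) = 0 := by
    intro c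
    simp only [hn, LinearMap.comp_apply, LinearEquiv.coe_coe, LinearMap.sub_apply,
      LinearMap.id_apply]
    rw [hu, sub_self, map_zero, map_zero, map_zero, map_zero]
  -- the inverse of V
  have hV1 : ∀ c, V (u (c - n c)) = c := by
    intro c
    rw [hVn, map_sub, hnn]
    simp
  have hV2 : ∀ c, u (V c - n (V c)) = c := by
    intro c
    obtain ⟨w, rfl⟩ : ∃ w, u w = c := ⟨u.symm c, by simp⟩
    rw [hVn, map_add, hnn]
    simp
  set W : C →ₗ[R] C := u.toLinearMap ∘ₗ (LinearMap.id - n) with hW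
  have hVW : ∀ c, V (W c) = c := by
    intro c
    simpa [hW] using hV1 c
  have hWV : ∀ c, W (V c) = c := by
    intro c
    simpa [hW] using hV2 c
  -- ψ (x, c) = φ (x + s c, c); its second coordinate is g x + V c
  have hψ : ∀ x c, (φ (x + s c, c)).2 = g x + V c := by
    intro x c
    rw [hsplit, map_add]
    simp [hV, add_assoc]
  refine ⟨LinearEquiv.ofLinearMap
    (LinearMap.fst R Y C ∘ₗ φ.toLinearMap ∘ₗ
      (LinearMap.prod (LinearMap.id - s ∘ₗ W ∘ₗ g) (-(W ∘ₗ g))))
    ((LinearMap.fst R X C - s ∘ₗ LinearMap.snd R X C) ∘ₗ φ.symm.toLinearMap ∘ₗ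
      LinearMap.inl R Y C) ?_ ?_⟩
  · apply LinearMap.ext
    intro y
    obtain ⟨⟨x, c⟩, hxc⟩ : ∃ p : X × C, φ p = (y, 0) := ⟨φ.symm (y, 0), by simp⟩
    have hsym : φ.symm (y, 0) = (x, c) := by rw [← hxc]; simp
    have h0 : g (x - s c) + V c = 0 := by
      have := hψ (x - s c) c
      rw [sub_add_cancel, hxc] at this
      exact this.symm
    have hc : W (g (x - s c)) = -c := by
      rw [eq_neg_of_add_eq_zero_left h0, map_neg, hWV]
    simp only [LinearMap.comp_apply, LinearEquiv.coe_coe, LinearMap.inl_apply, hsym,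
      LinearMap.sub_apply, LinearMap.fst_apply, LinearMap.snd_apply, LinearMap.prod_apply,
      Function.prod, LinearMap.id_apply, LinearMap.neg_apply, hc, map_neg, neg_neg, sub_neg_eq_add,
      sub_add_cancel, hxc]
  · apply LinearMap.ext
    intro x
    set c : C := -(W (g x)) with hc
    have hsx : x - s (W (g x)) = x + s c := by rw [hc, map_neg]; abel
    have h0 : (φ (x + s c, c)).2 = 0 := by
      rw [hψ, hc, map_neg, hVW]
      simp
    have h1 : φ (x + s c, c) = ((φ (x + s c, c)).1, 0) := Prod.ext rfl h0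
    simp only [LinearMap.comp_apply, LinearEquiv.coe_coe, LinearMap.prod_apply, Function.prod,
      LinearMap.sub_apply, LinearMap.id_apply, LinearMap.neg_apply, LinearMap.fst_apply,
      LinearMap.inl_apply, LinearMap.snd_apply]
    rw [hsx, ← hc, ← h1, LinearEquiv.symm_apply_apply]
    simp

/-- the left ideal `R e` of an idempotent -/
def Rid (e : R) : Submodule R R where
  carrier := {v | v * e = v}
  add_mem' := by
    intro a b ha hb
    simp only [Set.mem_ofPred_eq] at ha hb ⊢
    rw [add_mul, ha, hb]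
  zero_mem' := by simp
  smul_mem' := by
    intro c x hx
    simp only [Set.mem_ofPred_eq, smul_eq_mul] at hx ⊢
    rw [mul_assoc, hx]

theorem mem_Rid {e v : R} : v ∈ Rid e ↔ v * e = v := Iff.rfl

/-- multiplication by `s` on the right, from `R e` to `R f` -/
def mulR (e f s : R) (h : s * f = s) : Rid e →ₗ[R] Rid f where
  toFun v := ⟨v.1 * s, by rw [mem_Rid, mul_assoc, h]⟩
  map_add' v w := by
    ext
    simp [add_mul]
  map_smul' c v := by
    ext
    simp [mul_assoc]

@[simp] theorem mulR_coe (e f s : R) (h : s * f = s) (v : Rid e) :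
    (mulR e f s h v : R) = v.1 * s := rfl

/-- isomorphic idempotents -/
def ridEquiv {e f s t : R} (hs : s * f = s) (ht : t * e = t) (hst : s * t = e) (hts : t * s = f) :
    Rid e ≃ₗ[R] Rid f :=
  LinearEquiv.ofLinearMap (mulR e f s hs) (mulR f e t ht)
    (by
      apply LinearMap.ext
      rintro ⟨v, hv⟩
      apply Subtype.ext
      simp only [LinearMap.comp_apply, mulR_coe, LinearMap.id_apply]
      rw [mul_assoc, hts]
      exact hv)
    (by
      apply LinearMap.ext
      rintro ⟨v, hv⟩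
      apply Subtype.ext
      simp only [LinearMap.comp_apply, mulR_coe, LinearMap.id_apply]
      rw [mul_assoc, hst]
      exact hv)

/-- orthogonal decomposition -/
theorem ridSplit {e e1 e2 : R} (h : e = e1 + e2) (h11 : e1 * e1 = e1) (h22 : e2 * e2 = e2)
    (h12 : e1 * e2 = 0) (h21 : e2 * e1 = 0) : Nonempty (Rid e ≃ₗ[R] Rid e1 × Rid e2) := by
  have he1 : e1 * e = e1 := by rw [h, mul_add, h11, h12, add_zero]
  have he2 : e2 * e = e2 := by rw [h, mul_add, h21, h22, zero_add]
  refine ⟨LinearEquiv.ofLinearMap (LinearMap.prod (mulR e e1 e1 h11) (mulR e e2 e2 h22))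
    (LinearMap.coprod (mulR e1 e e1 he1) (mulR e2 e e2 he2)) ?_ ?_⟩
  · apply LinearMap.ext
    rintro ⟨⟨v, hv⟩, ⟨w, hw⟩⟩
    rw [mem_Rid] at hv hw
    ext
    · simp only [LinearMap.comp_apply, LinearMap.prod_apply, Function.prod, LinearMap.coprod_apply,
        mulR_coe, Submodule.coe_add, LinearMap.id_apply]
      rw [add_mul, mul_assoc, mul_assoc, h11, h21, hv, mul_zero, add_zero]
    · simp only [LinearMap.comp_apply, LinearMap.prod_apply, Function.prod, LinearMap.coprod_apply,
        mulR_coe, Submodule.coe_add, LinearMap.id_apply]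
      rw [add_mul, mul_assoc, mul_assoc, h12, h22, hw, mul_zero, zero_add]
  · apply LinearMap.ext
    rintro ⟨v, hv⟩
    rw [mem_Rid] at hv
    ext
    simp only [LinearMap.comp_apply, LinearMap.prod_apply, Function.prod, LinearMap.coprod_apply,
      mulR_coe, Submodule.coe_add, LinearMap.id_apply]
    rw [mul_assoc, mul_assoc, h11, h22, ← mul_add, ← h, hv]

/-- `R = R e ⊕ R (1 - e)` -/
theorem ridTop {e f : R} (h : e + f = 1) (he : e * e = e) :
    Nonempty (R ≃ₗ[R] Rid e × Rid f) := by
  have hf : f = 1 - e := by rw [← h]; abel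
  have hff : f * f = f := by
    rw [hf, mul_sub, sub_mul, sub_mul, he]
    simp
  have hef : e * f = 0 := by rw [hf, mul_sub, he]; simp
  have hfe : f * e = 0 := by rw [hf, sub_mul, he]; simp
  obtain ⟨φ⟩ := ridSplit (e := (1 : R)) h.symm he hff hef hfe
  have h1 : Rid (1 : R) = ⊤ := by
    ext v
    simp [mem_Rid]
  exact ⟨(LinearEquiv.ofTop _ h1).symm.trans φ⟩

/-- a corner that is unit-regular gives a cancellative left ideal -/
theorem ureEnd_rid {e : R} (he : e * e = e)
    (hur : ∀ z : R, e * z = z → z * e = z → ∃ u v : R, u * e = u ∧ v * e = v ∧ u * v = e ∧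
      v * u = e ∧ z * u * z = z) : UREnd R (Rid e) := by
  intro d
  set z : Rid e := d ⟨e, he⟩ with hz
  have hd : ∀ v : Rid e, (d v : R) = v.1 * z.1 := by
    intro v
    have : v = v.1 • (⟨e, he⟩ : Rid e) := by
      apply Subtype.ext
      exact v.2.symm
    conv_lhs => rw [this, map_smul]
    rfl
  have hze : z.1 * e = z.1 := z.2
  have hez : e * z.1 = z.1 := by
    have := hd ⟨e, he⟩
    rw [← hz] at this
    exact this.symm
  obtain ⟨u, v, hu, hv, huv, hvu, hzuz⟩ := hur z.1 hez hze
  refine ⟨ridEquiv hu hv huv hvu, fun c => ?_⟩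
  apply Subtype.ext
  have h1 := hd (ridEquiv hu hv huv hvu (d c))
  have h2 : ((ridEquiv hu hv huv hvu (d c) : Rid e) : R) = (d c : R) * u := rfl
  rw [h1, h2, hd c, mul_assoc, mul_assoc, ← mul_assoc z.1 u z.1, hzuz]

end Pool.Agent.MP_5ac330_al.OE
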