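import Mathlib
import Pool.Agent.Lib.MP_5ac330_al_h63.Cancel

set_option autoImplicit false

/-!
# One entry that is unit-regular modulo an ideal with unit-regular corners
-/

namespace Pool.Agent.MP_5ac330_al.OE

variable {R : Type*} [Ring R]

/-- `a` is unit-regular modulo `I` -/
def URMod (I : Ideal R) (a : R) : Prop :=
  ∃ u v : R, u * v - 1 ∈ I ∧ v * u - 1 ∈ I ∧ a * u * a - a ∈ I

/-- all corners of `I` are unit-regular -/
def URCorners (I : Ideal R) : Prop :=
  ∀ e ∈ I, e * e = e → ∀ z : R, e * z = z → z * e = z →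
    ∃ u v : R, u * e = u ∧ v * e = v ∧ u * v = e ∧ v * u = e ∧ z * u * z = z

/-- every one-sided inverse of an endomorphism is two-sided -/
def DFEnd (R : Type*) [Ring R] (Q : Type*) [AddCommGroup Q] [Module R Q] : Prop :=
  ∀ f g : Q →ₗ[R] Q, (∀ q, f (g q) = q) → ∀ q, g (f q) = q

/-- the class computation -/
theorem fin {p C E N B Q Q0 W p' q' : Type*} [AddCommGroup p] [AddCommGroup C] [AddCommGroup E]
    [AddCommGroup N] [AddCommGroup B] [AddCommGroup Q] [AddCommGroup Q0] [AddCommGroup W]
    [AddCommGroup p'] [AddCommGroup q'] [Module R p] [Module R C] [Module R E]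
    [Module R N] [Module R B] [Module R Q] [Module R Q0] [Module R W]
    [Module R p'] [Module R q'] (h1 : R ≃ₗ[R] p × E) (h2 : R ≃ₗ[R] C × E) (h3 : Q ≃ₗ[R] N × C)
    (h4 : (B × Q) ≃ₗ[R] p × N) (h5 : p ≃ₗ[R] W × p') (h6 : C ≃ₗ[R] W × q') (hc : UREnd R q')
    (hQ : Q ≃ₗ[R] R × Q0) (hDF : DFEnd R Q) : Subsingleton B := by
  -- `((W × E) × Q0) × q' ≃ R × Q0`
  have a1 : (((W × E) × Q0) × q') ≃ₗ[R] Q :=
    ((LinearEquiv.prodAssoc R (W × E) Q0 q').trans
      (((LinearEquiv.refl R (W × E)).prodCongr (LinearEquiv.prodComm R Q0 q')).trans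
        ((LinearEquiv.prodAssoc R (W × E) q' Q0).symm.trans
          ((((LinearEquiv.prodAssoc R W E q').trans
            (((LinearEquiv.refl R W).prodCongr (LinearEquiv.prodComm R E q')).trans
              (LinearEquiv.prodAssoc R W q' E).symm)).trans
            ((h6.symm.prodCongr (LinearEquiv.refl R E)).trans h2.symm)).prodCongr
            (LinearEquiv.refl R Q0))))).trans hQ.symm
  have a2 : Q ≃ₗ[R] ((N × W) × q') :=
    h3.trans (((LinearEquiv.refl R N).prodCongr h6).trans (LinearEquiv.prodAssoc R N W q').symm)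
  obtain ⟨φ⟩ := cancel hc (a1.trans a2)
  -- `B × Q ≃ Q`
  have b1 : (p × N) ≃ₗ[R] (p' × (N × W)) :=
    (h5.prodCongr (LinearEquiv.refl R N)).trans
      (((LinearEquiv.prodComm R W p').prodCongr (LinearEquiv.refl R N)).trans
        ((LinearEquiv.prodAssoc R p' W N).trans
          ((LinearEquiv.refl R p').prodCongr (LinearEquiv.prodComm R W N))))
  have b2 : (p' × ((W × E) × Q0)) ≃ₗ[R] Q :=
    ((LinearEquiv.prodAssoc R p' (W × E) Q0).symm.trans
      (((LinearEquiv.prodAssoc R p' W E).symm.prodCongr (LinearEquiv.refl R Q0)).trans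
        ((((LinearEquiv.prodComm R p' W).trans h5.symm).prodCongr
          (LinearEquiv.refl R E)).prodCongr (LinearEquiv.refl R Q0)))).trans
      ((h1.symm.prodCongr (LinearEquiv.refl R Q0)).trans hQ.symm)
  have θ : (B × Q) ≃ₗ[R] Q :=
    h4.trans (b1.trans (((LinearEquiv.refl R p').prodCongr φ.symm).trans b2))
  have key := hDF (LinearMap.snd R B Q ∘ₗ θ.symm.toLinearMap)
    (θ.toLinearMap ∘ₗ LinearMap.inr R B Q) (by
      intro q
      simp)
  refine ⟨fun b b' => ?_⟩
  have h0 : ∀ b : B, b = 0 := by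
    intro b
    have h := key (θ (b, 0))
    simp only [LinearMap.comp_apply, LinearEquiv.coe_coe, LinearEquiv.symm_apply_apply,
      LinearMap.snd_apply, LinearMap.inr_apply] at h
    have h' := θ.injective h
    exact (congrArg Prod.fst h').symm
  rw [h0 b, h0 b']

/-- reflexive quasi-inverses -/
theorem reflexive (hreg : ∀ a : R, ∃ x, a * x * a = a) (a : R) :
    ∃ x, a * x * a = a ∧ x * a * x = x := by
  obtain ⟨b, hb⟩ := hreg a
  refine ⟨b * a * b, ?_, ?_⟩
  · calc a * (b * a * b) * a = (a * b * a) * b * a := by noncomm_ring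
      _ = a := by rw [hb, hb]
  · calc b * a * b * a * (b * a * b) = b * (a * b * a) * b * a * b := by noncomm_ring
      _ = b * a * b * a * b := by rw [hb]
      _ = b * (a * b * a) * b := by noncomm_ring
      _ = b * a * b := by rw [hb]

/-- the kernel and the cokernel of an element which is unit-regular modulo `I` -/
theorem match_mod (hreg : ∀ a : R, ∃ x, a * x * a = a) (I : Ideal R) [I.IsTwoSided] {a : R}
    (ha : URMod I a) : ∃ a' g1 g2 h2 : R, a * a' * a = a ∧ a' * a * a' = a' ∧
      g2 ∈ I ∧ h2 ∈ I ∧ g2 * g2 = g2 ∧ h2 * h2 = h2 ∧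
      Nonempty (Rid (1 - a * a') ≃ₗ[R] Rid g1 × Rid g2) ∧
      Nonempty (Rid (1 - a' * a) ≃ₗ[R] Rid g1 × Rid h2) := by
  obtain ⟨a', haa, haa'⟩ := reflexive hreg a
  obtain ⟨u, v, huv, hvu, hua⟩ := ha
  set g : R := 1 - a * a' with hg
  set h : R := 1 - a' * a with hh
  have ga : g * a = 0 := by rw [hg, sub_mul, haa]; simp
  have ah : a * h = 0 := by rw [hh, mul_sub, ← mul_assoc, haa]; simp
  have gg : g * g = g := by
    have : g * (a * a') = 0 := by rw [← mul_assoc, ga, zero_mul]
    calc g * g = g * (1 - a * a') := by rw [← hg]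
      _ = g - g * (a * a') := by rw [mul_sub, mul_one]
      _ = g := by rw [this, sub_zero]
  have hh' : h * h = h := by
    have : a' * a * h = 0 := by rw [mul_assoc, ah, mul_zero]
    calc h * h = (1 - a' * a) * h := by rw [← hh]
      _ = h - a' * a * h := by rw [sub_mul, one_mul]
      _ = h := by rw [this, sub_zero]
  -- `s` and `t`
  set s : R := g * v * h with hs
  set t : R := h * ((1 - u * a) * u) * g with ht
  have gs : g * s = s := by rw [hs, ← mul_assoc, ← mul_assoc, gg]
  have sh : s * h = s := by rw [hs, mul_assoc, hh']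
  have th : h * t = t := by rw [ht, ← mul_assoc, ← mul_assoc, hh']
  have tg : t * g = t := by rw [ht, mul_assoc, gg]
  -- congruences
  set π := Ideal.Quotient.mk I with hπ
  have e1 : π u * π v = 1 := by
    have := Ideal.Quotient.eq_zero_iff_mem.2 huv
    rw [map_sub, map_mul, map_one, sub_eq_zero] at this
    exact this
  have e2 : π v * π u = 1 := by
    have := Ideal.Quotient.eq_zero_iff_mem.2 hvu
    rw [map_sub, map_mul, map_one, sub_eq_zero] at this
    exact this
  have e3 : π a * π u * π a = π a := by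
    have := Ideal.Quotient.eq_zero_iff_mem.2 hua
    rw [map_sub, map_mul, map_mul, sub_eq_zero] at this
    exact this
  have e4 : π g * π a = 0 := by rw [← map_mul, ga, map_zero]
  have e5 : π a * π h = 0 := by rw [← map_mul, ah, map_zero]
  have e6 : π g * π g = π g := by rw [← map_mul, gg]
  have e7 : π h * π h = π h := by rw [← map_mul, hh']
  have e8 : π g = 1 - π a * π a' := by rw [hg, map_sub, map_mul, map_one]
  have e9 : π h = 1 - π a' * π a := by rw [hh, map_sub, map_mul, map_one]
  have st : π s * π t = π g := by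
    have f1 : π h * (1 - π u * π a) = 1 - π u * π a := by
      rw [e9]
      have : π a' * π a * (π u * π a) = π a' * π a := by
        rw [mul_assoc, ← mul_assoc (π a) (π u) (π a), e3]
      rw [sub_mul, one_mul, mul_sub, mul_one, this, sub_self, sub_zero]
    calc π s * π t = π g * π v * (π h * π h) * ((1 - π u * π a) * π u) * π g := by
          rw [hs, ht]
          simp only [map_mul, map_sub, map_one]
          noncomm_ring
      _ = π g * π v * (π h * (1 - π u * π a)) * π u * π g := by rw [e7]; noncomm_ring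
      _ = π g * π v * (1 - π u * π a) * π u * π g := by rw [f1]
      _ = π g * (π v * π u - (π v * π u) * π a * π u) * π g := by noncomm_ring
      _ = π g * π g - (π g * π a) * π u * π g := by rw [e2]; noncomm_ring
      _ = π g := by rw [e4, e6]; simp
  have ts : π t * π s = π h := by
    have f1 : (1 - π u * π a) * π u * π g = (1 - π u * π a) * π u := by
      rw [e8]
      have : (1 - π u * π a) * π u * (π a * π a') = 0 := by
        calc (1 - π u * π a) * π u * (π a * π a')
            = π u * π a * π a' - π u * (π a * π u * π a) * π a' := by noncomm_ring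
          _ = 0 := by rw [e3, sub_self]
      rw [mul_sub, mul_one, this, sub_zero]
    calc π t * π s = π h * ((1 - π u * π a) * π u * (π g * π g)) * π v * π h := by
          rw [hs, ht]
          simp only [map_mul, map_sub, map_one]
          noncomm_ring
      _ = π h * ((1 - π u * π a) * π u * π g) * π v * π h := by rw [e6]
      _ = π h * ((1 - π u * π a) * π u) * π v * π h := by rw [f1]
      _ = π h * (1 - π u * π a) * (π u * π v) * π h := by noncomm_ring
      _ = π h * π h - π h * π u * (π a * π h) := by rw [e1]; noncomm_ring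
      _ = π h := by rw [e5, e7]; simp
  -- quasi-inverse of `s`
  obtain ⟨w, hw, hw'⟩ := reflexive hreg s
  set s' : R := h * w * g with hs'
  have sss : s * s' * s = s := by
    calc s * s' * s = (s * h) * w * (g * s) := by rw [hs']; noncomm_ring
      _ = s := by rw [sh, gs, hw]
  set g1 : R := s * s' with hg1
  set h1 : R := s' * s with hh1
  have hs'' : h * s' = s' := by rw [hs', ← mul_assoc, ← mul_assoc, hh']
  have s'g : s' * g = s' := by rw [hs', mul_assoc, gg]
  have gg1 : g * g1 = g1 := by rw [hg1, ← mul_assoc, gs]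
  have g1g : g1 * g = g1 := by rw [hg1, mul_assoc, s'g]
  have hh1' : h * h1 = h1 := by rw [hh1, ← mul_assoc, hs'']
  have h1h : h1 * h = h1 := by rw [hh1, mul_assoc, sh]
  have g11 : g1 * g1 = g1 := by
    calc g1 * g1 = (s * s' * s) * s' := by rw [hg1]; noncomm_ring
      _ = g1 := by rw [sss]
  have h11 : h1 * h1 = h1 := by
    calc h1 * h1 = s' * (s * s' * s) := by rw [hh1]; noncomm_ring
      _ = h1 := by rw [sss]
  have g1s : g1 * s = s := sss
  have s'g1 : s' * g1 = s' := by
    calc s' * g1 = h * w * ((g * s) * h) * w * g := by rw [hg1, hs']; noncomm_ring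
      _ = h * (w * s * w) * g := by rw [gs, sh]; noncomm_ring
      _ = s' := by rw [hw']
  have sh1 : s * h1 = s := by rw [hh1, ← mul_assoc, sss]
  -- the differences are in `I`
  have gI : g - g1 ∈ I := by
    have m1 : g - s * t ∈ I := by
      rw [← Ideal.Quotient.eq_zero_iff_mem, map_sub, map_mul]
      change π g - π s * π t = 0
      rw [st, sub_self]
    have m2 : (1 - g1) * (g - s * t) ∈ I := I.mul_mem_left _ m1
    have m3 : (1 - g1) * (g - s * t) = g - g1 := by
      calc (1 - g1) * (g - s * t) = g - g1 * g - (s * t - g1 * s * t) := by noncomm_ring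
        _ = g - g1 := by rw [g1g, g1s, sub_self, sub_zero]
    rwa [m3] at m2
  have hI : h - h1 ∈ I := by
    have m1 : h - t * s ∈ I := by
      rw [← Ideal.Quotient.eq_zero_iff_mem, map_sub, map_mul]
      change π h - π t * π s = 0
      rw [ts, sub_self]
    have m2 : (h - t * s) * (1 - h1) ∈ I := I.mul_mem_right _ m1
    have m3 : (h - t * s) * (1 - h1) = h - h1 := by
      calc (h - t * s) * (1 - h1) = h - h * h1 - (t * s - t * (s * h1)) := by noncomm_ring
        _ = h - h1 := by rw [hh1', sh1, sub_self, sub_zero]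
    rwa [m3] at m2
  have g22 : (g - g1) * (g - g1) = g - g1 := by
    calc (g - g1) * (g - g1) = g * g - g * g1 - g1 * g + g1 * g1 := by noncomm_ring
      _ = g - g1 := by rw [gg, gg1, g1g, g11]; abel
  have h22 : (h - h1) * (h - h1) = h - h1 := by
    calc (h - h1) * (h - h1) = h * h - h * h1 - h1 * h + h1 * h1 := by noncomm_ring
      _ = h - h1 := by rw [hh', hh1', h1h, h11]; abel
  refine ⟨a', g1, g - g1, h - h1, haa, haa', gI, hI, g22, h22, ?_, ?_⟩
  · exact ridSplit (add_sub_cancel g1 g).symm g11 g22 (by rw [mul_sub, g1g, g11, sub_self])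
      (by rw [sub_mul, gg1, g11, sub_self])
  · obtain ⟨φ⟩ := ridSplit (e := h) (e1 := h1) (e2 := h - h1) (add_sub_cancel h1 h).symm h11 h22
      (by rw [mul_sub, h1h, h11, sub_self]) (by rw [sub_mul, hh1', h11, sub_self])
    have ψ : Rid h1 ≃ₗ[R] Rid g1 := ridEquiv (s := s') (t := s) s'g1 sh1 rfl rfl
    exact ⟨φ.trans (ψ.prodCongr (LinearEquiv.refl R _))⟩

/-- cancellation for idempotents of `I` -/
theorem ure_of_corner {I : Ideal R} (hI : URCorners I) {e : R} (he : e ∈ I) (hee : e * e = e) :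
    UREnd R (Rid e) := ureEnd_rid hee (hI e he hee)

/-- `R = R(1 - a a') ⊕ R a a'` and `R = R(1 - a' a) ⊕ R a' a ≃ R(1 - a' a) ⊕ R a a'` -/
theorem two_dec {a a' : R} (h1 : a * a' * a = a) (h2 : a' * a * a' = a') :
    Nonempty (R ≃ₗ[R] Rid (1 - a * a') × Rid (a * a')) ∧
      Nonempty (R ≃ₗ[R] Rid (1 - a' * a) × Rid (a * a')) := by
  have k1 : (a * a') * (a * a') = a * a' := by rw [← mul_assoc, h1]
  have k2 : (a' * a) * (a' * a) = a' * a := by rw [← mul_assoc, h2]
  have k3 : (1 - a * a') * (1 - a * a') = 1 - a * a' := by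
    rw [mul_sub, mul_one, sub_mul, one_mul, k1, sub_self, sub_zero]
  have k4 : (1 - a' * a) * (1 - a' * a) = 1 - a' * a := by
    rw [mul_sub, mul_one, sub_mul, one_mul, k2, sub_self, sub_zero]
  refine ⟨ridTop (sub_add_cancel _ _) k3, ?_⟩
  obtain ⟨φ⟩ := ridTop (e := 1 - a' * a) (f := a' * a) (sub_add_cancel _ _) k4
  have ψ : Rid (a' * a) ≃ₗ[R] Rid (a * a') := ridEquiv (s := a') (t := a)
    (by rw [← mul_assoc, h2]) (by rw [← mul_assoc, h1]) rfl rfl
  exact ⟨φ.trans ((LinearEquiv.refl R _).prodCongr ψ)⟩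

section entries

variable {Q Q0 : Type*} [AddCommGroup Q] [AddCommGroup Q0] [Module R Q] [Module R Q0]

/-- `ker (fst ∘ G)` is `ker G × Q` -/
theorem kerSplit (F G : (R × Q) →ₗ[R] (R × Q)) (hGF : ∀ m, G (F m) = m) :
    Nonempty ((LinearMap.ker G × Q) ≃ₗ[R] LinearMap.ker (LinearMap.fst R R Q ∘ₗ G)) := by
  refine ⟨LinearEquiv.ofLinearMap
    (LinearMap.codRestrict _ (LinearMap.coprod (Submodule.subtype _) (F ∘ₗ LinearMap.inr R R Q))
      ?_)
    (LinearMap.prod (LinearMap.codRestrict _ (Submodule.subtype _ -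
      F ∘ₗ LinearMap.inr R R Q ∘ₗ LinearMap.snd R R Q ∘ₗ G ∘ₗ Submodule.subtype _) ?_)
      (LinearMap.snd R R Q ∘ₗ G ∘ₗ Submodule.subtype _)) ?_ ?_⟩
  · rintro ⟨⟨b, hb⟩, t⟩
    have hb' : G b = 0 := hb
    simp [hb', hGF]
  · rintro ⟨k, hk⟩
    have hk' : (G k).1 = 0 := hk
    simp only [LinearMap.mem_ker, LinearMap.sub_apply, LinearMap.comp_apply,
      Submodule.subtype_apply, LinearMap.snd_apply, LinearMap.inr_apply, map_sub, hGF]
    ext
    · simp [hk']
    · simp
  · apply LinearMap.ext
    rintro ⟨k, hk⟩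
    apply Subtype.ext
    simp
  · apply LinearMap.ext
    rintro ⟨⟨b, hb⟩, t⟩
    have hb' : G b = 0 := hb
    ext
    · simp [hb', hGF]
    · simp [hb', hGF]
    · simp [hb', hGF]

/-- the entry of the surjective factor -/
theorem oneY (hreg : ∀ a : R, ∃ x, a * x * a = a) (I : Ideal R) [I.IsTwoSided]
    (hI : URCorners I) (hQ : Q ≃ₗ[R] R × Q0) (hDF : DFEnd R Q)
    (F G : (R × Q) →ₗ[R] (R × Q)) (hGF : ∀ m, G (F m) = m) (ha : URMod I (G (1, 0)).1) :
    ∀ m, F (G m) = m := by
  set a : R := (G (1, 0)).1 with haG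
  obtain ⟨a', g1, g2, h2, haa, haa', _, h2I, _, h22, ⟨φg⟩, ⟨φh⟩⟩ := match_mod hreg I ha
  set g : R := 1 - a * a' with hg
  set h : R := 1 - a' * a with hh
  have ga : g * a = 0 := by rw [hg, sub_mul, haa]; simp
  have ah : a * h = 0 := by rw [hh, mul_sub, ← mul_assoc, haa]; simp
  have hh' : h * h = h := by
    calc h * h = h - a' * (a * h) := by rw [hh]; noncomm_ring
      _ = h := by rw [ah, mul_zero, sub_zero]
  obtain ⟨⟨ε1⟩, ⟨ε2⟩⟩ := two_dec haa haa'
  -- the entries
  have hG1 : ∀ v : R, (G (v, 0)).1 = v * a := by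
    intro v
    have : ((v, 0) : R × Q) = v • (1, 0) := by simp
    rw [this, map_smul]
    simp [haG]
  set c : Q →ₗ[R] R := LinearMap.fst R R Q ∘ₗ G ∘ₗ LinearMap.inr R R Q with hc
  have hG : ∀ v t, (G (v, t)).1 = v * a + c t := by
    intro v t
    have : ((v, t) : R × Q) = (v, 0) + (0, t) := by simp
    rw [this, map_add, Prod.fst_add, hG1]
    simp [hc]
  -- `Q = N ⊕ R h`
  set ρ : Q →ₗ[R] Rid h := LinearMap.codRestrict (Rid h)
    (LinearMap.toSpanSingleton R R h ∘ₗ c) (by
      intro t
      simp [mem_Rid, mul_assoc, hh']) with hρ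
  have hρc : ∀ t, (ρ t : R) = c t * h := by
    intro t
    simp [hρ]
  obtain ⟨σ⟩ := split ρ (LinearMap.snd R R Q ∘ₗ F ∘ₗ LinearMap.inl R R Q ∘ₗ Submodule.subtype _)
    (by
      rintro ⟨w, hw⟩
      rw [mem_Rid] at hw
      apply Subtype.ext
      rw [hρc]
      simp only [LinearMap.comp_apply, Submodule.subtype_apply, LinearMap.inl_apply,
        LinearMap.snd_apply]
      have h1 := hG (F (w, 0)).1 (F (w, 0)).2
      rw [Prod.mk.eta, hGF] at h1
      have h2 : c (F (w, 0)).2 = w - (F (w, 0)).1 * a := eq_sub_of_add_eq' h1.symm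
      rw [h2, sub_mul, mul_assoc, ah, mul_zero, sub_zero, hw])
  -- `K = R g ⊕ N`
  have κ : LinearMap.ker (LinearMap.fst R R Q ∘ₗ G) ≃ₗ[R] Rid g × LinearMap.ker ρ := by
    refine LinearEquiv.ofLinearMap
      (LinearMap.prod
        (LinearMap.codRestrict (Rid g) ((LinearMap.fst R R Q + LinearMap.toSpanSingleton R R a' ∘ₗ
          c ∘ₗ LinearMap.snd R R Q) ∘ₗ Submodule.subtype _) ?_)
        (LinearMap.codRestrict (LinearMap.ker ρ) (LinearMap.snd R R Q ∘ₗ Submodule.subtype _) ?_))
      (LinearMap.codRestrict _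
        (LinearMap.prod
          (Submodule.subtype _ ∘ₗ LinearMap.fst R _ _ - LinearMap.toSpanSingleton R R a' ∘ₗ c ∘ₗ
            Submodule.subtype _ ∘ₗ LinearMap.snd R _ _)
          (Submodule.subtype _ ∘ₗ LinearMap.snd R _ _)) ?_) ?_ ?_
    · rintro ⟨⟨v, t⟩, hk⟩
      have hk' : v * a + c t = 0 := by rw [← hG]; exact hk
      have h3 : c t = -(v * a) := eq_neg_of_add_eq_zero_right hk'
      simp only [LinearMap.comp_apply, LinearMap.add_apply, Submodule.subtype_apply,
        LinearMap.fst_apply, LinearMap.snd_apply, LinearMap.toSpanSingleton_apply, smul_eq_mul,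
        mem_Rid, h3, hg]
      have : v * a * a' * (a * a') = v * a * a' := by
        calc v * a * a' * (a * a') = v * (a * a' * a) * a' := by noncomm_ring
          _ = v * a * a' := by rw [haa]
      calc (v + -(v * a) * a') * (1 - a * a')
          = v - v * a * a' - (v * a * a' - v * a * a' * (a * a')) := by noncomm_ring
        _ = v + -(v * a) * a' := by rw [this]; noncomm_ring
    · rintro ⟨⟨v, t⟩, hk⟩
      have hk' : v * a + c t = 0 := by rw [← hG]; exact hk
      have h3 : c t = -(v * a) := eq_neg_of_add_eq_zero_right hk'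
      rw [LinearMap.mem_ker]
      apply Subtype.ext
      rw [hρc]
      simp only [LinearMap.comp_apply, Submodule.subtype_apply, LinearMap.snd_apply, h3,
        neg_mul, mul_assoc, ah, mul_zero, neg_zero, Submodule.coe_zero]
    · rintro ⟨⟨w, hw⟩, ⟨t, ht⟩⟩
      rw [mem_Rid] at hw
      have ht' : c t * h = 0 := by
        rw [← hρc]
        rw [LinearMap.mem_ker] at ht
        rw [ht]
        rfl
      rw [LinearMap.mem_ker]
      simp only [LinearMap.comp_apply, LinearMap.prod_apply, Function.prod, LinearMap.sub_apply,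
        Submodule.subtype_apply, LinearMap.fst_apply, LinearMap.snd_apply,
        LinearMap.toSpanSingleton_apply, smul_eq_mul, hG]
      have h4 : w * a = 0 := by rw [← hw, mul_assoc, ga, mul_zero]
      calc (w - c t * a') * a + c t = w * a + c t * (1 - a' * a) := by noncomm_ring
        _ = 0 := by rw [h4, ← hh, ht', add_zero]
    · apply LinearMap.ext
      rintro ⟨⟨w, hw⟩, ⟨t, ht⟩⟩
      ext
      · simp
      · simp
    · apply LinearMap.ext
      rintro ⟨⟨v, t⟩, hk⟩
      apply Subtype.ext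
      ext
      · simp
      · simp
  obtain ⟨β⟩ := kerSplit F G hGF
  have hsub := fin ε1 ε2 σ (β.trans κ) φg φh (ure_of_corner hI h2I h22) hQ hDF
  intro m
  have h5 : m - F (G m) ∈ LinearMap.ker G := by
    rw [LinearMap.mem_ker, map_sub, hGF, sub_self]
  have h6 := congrArg Subtype.val (hsub.elim ⟨_, h5⟩ 0)
  exact (sub_eq_zero.1 h6).symm

/-- the entry of the injective factor -/
theorem oneX (hreg : ∀ a : R, ∃ x, a * x * a = a) (I : Ideal R) [I.IsTwoSided]
    (hI : URCorners I) (hQ : Q ≃ₗ[R] R × Q0) (hDF : DFEnd R Q)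
    (F G : (R × Q) →ₗ[R] (R × Q)) (hGF : ∀ m, G (F m) = m) (ha : URMod I (F (1, 0)).1) :
    ∀ m, F (G m) = m := by
  set a : R := (F (1, 0)).1 with haF
  obtain ⟨a', g1, g2, h2, haa, haa', g2I, _, g22, _, ⟨φg⟩, ⟨φh⟩⟩ := match_mod hreg I ha
  set g : R := 1 - a * a' with hg
  set h : R := 1 - a' * a with hh
  have ga : g * a = 0 := by rw [hg, sub_mul, haa]; simp
  have ah : a * h = 0 := by rw [hh, mul_sub, ← mul_assoc, haa]; simp
  have ha0 : h * a' = 0 := by rw [hh, sub_mul, haa']; simp
  have gg : g * g = g := by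
    calc g * g = g - (g * a) * a' := by rw [hg]; noncomm_ring
      _ = g := by rw [ga, zero_mul, sub_zero]
  have hh' : h * h = h := by
    calc h * h = h - a' * (a * h) := by rw [hh]; noncomm_ring
      _ = h := by rw [ah, mul_zero, sub_zero]
  obtain ⟨⟨ε1⟩, ⟨ε2⟩⟩ := two_dec haa haa'
  -- the entries
  set γ : R →ₗ[R] Q := LinearMap.snd R R Q ∘ₗ F ∘ₗ LinearMap.inl R R Q with hγ
  have hF : ∀ v : R, F (v, 0) = (v * a, γ v) := by
    intro v
    have h1 : ((v, 0) : R × Q) = v • (1, 0) := by simp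
    ext
    · rw [h1, map_smul]
      simp [haF]
    · simp [hγ]
  set b0 : R := (G (1, 0)).1 with hb0
  set c : Q →ₗ[R] R := LinearMap.fst R R Q ∘ₗ G ∘ₗ LinearMap.inr R R Q with hc
  have hG : ∀ v t, (G (v, t)).1 = v * b0 + c t := by
    intro v t
    have h1 : ((v, t) : R × Q) = v • (1, 0) + (0, t) := by simp
    rw [h1, map_add, map_smul, Prod.fst_add]
    simp [hc, hb0]
  have hcγ : ∀ v, c (γ v) = v - v * a * b0 := by
    intro v
    have h1 : (G (F (v, 0))).1 = v := by rw [hGF]
    rw [hF, hG] at h1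
    exact eq_sub_of_add_eq' h1
  have hcg : ∀ v, v * g = v → c (γ v) = v := by
    intro v hv
    have : v * a = 0 := by rw [← hv, mul_assoc, ga, mul_zero]
    rw [hcγ, this, zero_mul, sub_zero]
  -- `Q = N ⊕ R g`
  set ρ : Q →ₗ[R] Rid g := LinearMap.codRestrict (Rid g)
    (LinearMap.toSpanSingleton R R g ∘ₗ c) (by
      intro t
      simp [mem_Rid, mul_assoc, gg]) with hρ
  have hρc : ∀ t, (ρ t : R) = c t * g := by
    intro t
    simp [hρ]
  have hργ : ∀ v, v * g = v → (ρ (γ v) : R) = v := by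
    intro v hv
    rw [hρc, hcg v hv, hv]
  obtain ⟨σ⟩ := split ρ (γ ∘ₗ Submodule.subtype _)
    (by
      rintro ⟨w, hw⟩
      rw [mem_Rid] at hw
      apply Subtype.ext
      exact hργ w hw)
  -- `K = R h ⊕ N`
  set A' : R →ₗ[R] R := LinearMap.toSpanSingleton R R a' with hA'
  have hA'v : ∀ v, A' v = v * a' := by
    intro v
    simp [hA']
  -- `t₁ = t - γ (v a')`
  set τ : (R × Q) →ₗ[R] Q := LinearMap.snd R R Q - γ ∘ₗ A' ∘ₗ LinearMap.fst R R Q with hτ
  have hτv : ∀ v t, τ (v, t) = t - γ (v * a') := by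
    intro v t
    simp [hτ, hA'v]
  set ν : (R × Q) →ₗ[R] Q := τ - γ ∘ₗ Submodule.subtype _ ∘ₗ ρ ∘ₗ τ with hν
  have hνm : ∀ m, ν m = τ m - γ (ρ (τ m) : R) := by
    intro m
    simp [hν]
  -- the inverse
  set δ : (R × Q) →ₗ[R] (R × Q) := LinearMap.id -
    F ∘ₗ LinearMap.inl R R Q ∘ₗ LinearMap.fst R R Q ∘ₗ G with hδ
  have hδm : ∀ m, δ m = m - F ((G m).1, 0) := by
    intro m
    simp [hδ]
  have κ : LinearMap.ker (LinearMap.fst R R Q ∘ₗ G) ≃ₗ[R] Rid h × LinearMap.ker ρ := by
    refine LinearEquiv.ofLinearMap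
      (LinearMap.prod
        (LinearMap.codRestrict (Rid h) (LinearMap.toSpanSingleton R R h ∘ₗ LinearMap.fst R R Q ∘ₗ
          Submodule.subtype _) ?_)
        (LinearMap.codRestrict (LinearMap.ker ρ) (ν ∘ₗ Submodule.subtype _) ?_))
      (LinearMap.codRestrict _
        (δ ∘ₗ (LinearMap.prodMap (Submodule.subtype _) (Submodule.subtype _))) ?_) ?_ ?_
    · rintro ⟨⟨v, t⟩, hk⟩
      simp [mem_Rid, mul_assoc, hh']
    · rintro ⟨m, hk⟩
      rw [LinearMap.mem_ker]
      simp only [LinearMap.comp_apply, Submodule.subtype_apply]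
      apply Subtype.ext
      rw [hνm, map_sub, Submodule.coe_sub, hργ _ (ρ (τ m)).2, sub_self]
      rfl
    · rintro ⟨⟨w, hw⟩, ⟨t, ht⟩⟩
      rw [LinearMap.mem_ker]
      simp only [LinearMap.comp_apply, hδm, map_sub, hGF]
      simp
    · apply LinearMap.ext
      rintro ⟨⟨w, hw⟩, ⟨t, ht⟩⟩
      rw [mem_Rid] at hw
      rw [LinearMap.mem_ker] at ht
      set z : R := (G (w, t)).1 with hz
      have f1 : δ (w, t) = (w - z * a, t - γ z) := by
        rw [hδm, hF]
        rfl
      have f2 : w * a' = 0 := by rw [← hw, mul_assoc, ha0, mul_zero]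
      have f3 : τ (w - z * a, t - γ z) = t - γ (z * g) := by
        rw [hτv]
        have : (w - z * a) * a' = -(z * a * a') := by rw [sub_mul, f2, zero_sub]
        rw [this, map_neg, sub_neg_eq_add, sub_add, ← map_sub]
        congr 2
        rw [hg]
        noncomm_ring
      have f4 : (ρ (τ (w - z * a, t - γ z)) : R) = -(z * g) := by
        rw [f3, map_sub, ht, Submodule.coe_sub, hργ _ (by rw [mul_assoc, gg])]
        simp
      apply Prod.ext
      · apply Subtype.ext
        simp only [LinearMap.comp_apply, LinearMap.prod_apply, Function.prod,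
          LinearMap.codRestrict_apply, LinearMap.prodMap_apply, Submodule.subtype_apply,
          LinearMap.id_apply]
        rw [f1]
        simp only [LinearMap.fst_apply, LinearMap.toSpanSingleton_apply, smul_eq_mul]
        rw [sub_mul, mul_assoc, ah, mul_zero, sub_zero, hw]
      · apply Subtype.ext
        simp only [LinearMap.comp_apply, LinearMap.prod_apply, Function.prod,
          LinearMap.codRestrict_apply, LinearMap.prodMap_apply, Submodule.subtype_apply,
          LinearMap.id_apply]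
        rw [f1, hνm, f4, f3, map_neg]
        abel
    · apply LinearMap.ext
      rintro ⟨⟨v, t⟩, hk⟩
      have hk' : v * b0 + c t = 0 := by rw [← hG]; exact hk
      apply Subtype.ext
      simp only [LinearMap.comp_apply, LinearMap.prod_apply, Function.prod,
        LinearMap.codRestrict_apply, LinearMap.prodMap_apply, Submodule.subtype_apply,
        LinearMap.id_apply, LinearMap.fst_apply, LinearMap.toSpanSingleton_apply, smul_eq_mul]
      set r : Rid g := ρ (τ (v, t)) with hr
      have hrg : (r : R) * g = r := r.2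
      have hra : (r : R) * a = 0 := by rw [← hrg, mul_assoc, ga, mul_zero]
      set w : R := v * a' + r with hw
      have f1 : v * h = v - w * a := by
        rw [hw, add_mul, hra, add_zero, hh]
        noncomm_ring
      have f2 : ν (v, t) = t - γ w := by
        rw [hνm, ← hr, hτv, hw, map_add]
        abel
      have f3 : (G (v - w * a, t - γ w)).1 = -w := by
        have : ((v - w * a, t - γ w) : R × Q) = (v, t) - F (w, 0) := by
          rw [hF]
          rfl
        rw [this, map_sub, hGF, Prod.fst_sub, hG, hk']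
        simp
      rw [f1, f2, hδm, f3, hF]
      ext
      · simp
      · simp
  obtain ⟨β⟩ := kerSplit F G hGF
  have hsub := fin ε2 ε1 σ (β.trans κ) φh φg (ure_of_corner hI g2I g22) hQ hDF
  intro m
  have h5 : m - F (G m) ∈ LinearMap.ker G := by
    rw [LinearMap.mem_ker, map_sub, hGF, sub_self]
  have h6 := congrArg Subtype.val (hsub.elim ⟨_, h5⟩ 0)
  exact (sub_eq_zero.1 h6).symm

end entries

end Pool.Agent.MP_5ac330_al.OE
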