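import Mathlib
import Pool.Agent.Lib.MP_5ac330_al_h63.Entry

set_option autoImplicit false

/-!
# One entry that is unit-regular modulo an ideal with unit-regular corners: matrices
-/

namespace Pool.Agent.MP_5ac330_al.OE

variable {R : Type*} [Ring R]

open Matrix

/-- direct finiteness of a matrix ring, in terms of endomorphisms -/
theorem dfEnd_of {n : ℕ} (h : ∀ A B : Matrix (Fin n) (Fin n) R, A * B = 1 → B * A = 1) :
    DFEnd R (Fin n → R) := by
  intro f g hfg q
  obtain ⟨A, rfl⟩ := (toLinearMapRight' (R := R) (m := Fin n) (n := Fin n)).surjective f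
  obtain ⟨B, rfl⟩ := (toLinearMapRight' (R := R) (m := Fin n) (n := Fin n)).surjective g
  have h1 : B * A = 1 := by
    apply (toLinearMapRight' (R := R) (m := Fin n) (n := Fin n)).injective
    rw [toLinearMapRight'_mul, toLinearMapRight'_one]
    exact LinearMap.ext hfg
  rw [← toLinearMapRight'_mul_apply, h B A h1, toLinearMapRight'_one, LinearMap.id_apply]

/-- the entry at `(0, 0)` -/
theorem core (hreg : ∀ a : R, ∃ x, a * x * a = a) (I : Ideal R) [I.IsTwoSided]
    (hI : URCorners I) {n : ℕ}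
    (hDF : ∀ A B : Matrix (Fin (n + 1)) (Fin (n + 1)) R, A * B = 1 → B * A = 1)
    (x y : Matrix (Fin (n + 2)) (Fin (n + 2)) R) (hxy : x * y = 1)
    (h : URMod I (x 0 0) ∨ URMod I (y 0 0)) : y * x = 1 := by
  set e : (R × (Fin (n + 1) → R)) ≃ₗ[R] (Fin (n + 2) → R) :=
    Fin.consLinearEquiv R (fun _ : Fin (n + 2) => R) with he
  set e' : (R × (Fin n → R)) ≃ₗ[R] (Fin (n + 1) → R) :=
    Fin.consLinearEquiv R (fun _ : Fin (n + 1) => R) with he'
  set F : (R × (Fin (n + 1) → R)) →ₗ[R] (R × (Fin (n + 1) → R)) :=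
    e.symm.toLinearMap ∘ₗ toLinearMapRight' x ∘ₗ e.toLinearMap with hF
  set G : (R × (Fin (n + 1) → R)) →ₗ[R] (R × (Fin (n + 1) → R)) :=
    e.symm.toLinearMap ∘ₗ toLinearMapRight' y ∘ₗ e.toLinearMap with hG
  have hGF : ∀ m, G (F m) = m := by
    intro m
    simp only [hF, hG, LinearMap.comp_apply, LinearEquiv.coe_coe, LinearEquiv.apply_symm_apply]
    rw [← toLinearMapRight'_mul_apply, hxy, toLinearMapRight'_one, LinearMap.id_apply,
      LinearEquiv.symm_apply_apply]
  have hent : ∀ z : Matrix (Fin (n + 2)) (Fin (n + 2)) R,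
      ((e.symm.toLinearMap ∘ₗ toLinearMapRight' z ∘ₗ e.toLinearMap) (1, 0)).1 = z 0 0 := by
    intro z
    have h1 : e ((1, 0) : R × (Fin (n + 1) → R)) = Pi.single 0 1 := by
      funext i
      refine Fin.cases ?_ (fun j => ?_) i
      · simp [he]
      · simp [he]
    simp only [LinearMap.comp_apply, LinearEquiv.coe_coe, h1, toLinearMapRight'_apply]
    have h2 : ∀ w : Fin (n + 2) → R, (e.symm w).1 = w 0 := by
      intro w
      simp [he]
    rw [h2]
    simp
  have key : ∀ m, F (G m) = m := by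
    rcases h with h | h
    · refine oneX hreg I hI e'.symm (dfEnd_of hDF) F G hGF ?_
      rw [hF, hent]
      exact h
    · refine oneY hreg I hI e'.symm (dfEnd_of hDF) F G hGF ?_
      rw [hG, hent]
      exact h
  apply (toLinearMapRight' (R := R) (m := Fin (n + 2)) (n := Fin (n + 2))).injective
  rw [toLinearMapRight'_mul, toLinearMapRight'_one]
  apply LinearMap.ext
  intro w
  have h3 := key (e.symm w)
  simp only [hF, hG, LinearMap.comp_apply, LinearEquiv.coe_coe,
    LinearEquiv.apply_symm_apply] at h3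
  exact e.symm.injective h3

/-- any entry -/
theorem anyEntry (hreg : ∀ a : R, ∃ x, a * x * a = a) (I : Ideal R) [I.IsTwoSided]
    (hI : URCorners I) {n : ℕ}
    (hDF : ∀ A B : Matrix (Fin (n + 1)) (Fin (n + 1)) R, A * B = 1 → B * A = 1)
    (x y : Matrix (Fin (n + 2)) (Fin (n + 2)) R) (hxy : x * y = 1) (i j : Fin (n + 2))
    (h : URMod I (x i j) ∨ URMod I (y i j)) : y * x = 1 := by
  have main : ∀ σ τ : Equiv.Perm (Fin (n + 2)),
      (URMod I (x (σ 0) (τ 0)) ∨ URMod I (y (τ 0) (σ 0))) → y * x = 1 := by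
    intro σ τ h
    have h1 : x.submatrix σ τ * y.submatrix τ σ = 1 := by
      rw [submatrix_mul_equiv, hxy, submatrix_one_equiv]
    have h2 := core hreg I hI hDF (x.submatrix σ τ) (y.submatrix τ σ) h1 (by simpa using h)
    rw [submatrix_mul_equiv] at h2
    have h3 := congrArg (fun M => M.submatrix τ.symm τ.symm) h2
    simpa [submatrix_submatrix, submatrix_one_equiv] using h3
  rcases h with h | h
  · exact main (Equiv.swap 0 i) (Equiv.swap 0 j) (Or.inl (by simpa using h))
  · exact main (Equiv.swap 0 j) (Equiv.swap 0 i) (Or.inr (by simpa using h))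

/-- equivalence of matrices -/
theorem units_one {S : Type*} [Ring S] (P Q : Sˣ) {x y : S} (hxy : x * y = 1) :
    ((P : S) * x * Q) * (((Q⁻¹ : Sˣ) : S) * y * ((P⁻¹ : Sˣ) : S)) = 1 := by
  calc ((P : S) * x * Q) * (((Q⁻¹ : Sˣ) : S) * y * ((P⁻¹ : Sˣ) : S))
      = (P : S) * (x * ((Q : S) * ((Q⁻¹ : Sˣ) : S)) * y) * ((P⁻¹ : Sˣ) : S) := by
        simp only [mul_assoc]
    _ = 1 := by rw [Units.mul_inv, mul_one, hxy, mul_one, Units.mul_inv]

theorem units_two {S : Type*} [Ring S] (P Q : Sˣ) {x y : S}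
    (h : (((Q⁻¹ : Sˣ) : S) * y * ((P⁻¹ : Sˣ) : S)) * ((P : S) * x * Q) = 1) : y * x = 1 := by
  have h3 : ((Q⁻¹ : Sˣ) : S) * (y * x) * Q = 1 := by
    rw [← h]
    simp only [mul_assoc, Units.inv_mul_cancel_left]
  calc y * x = (Q : S) * (((Q⁻¹ : Sˣ) : S) * (y * x) * Q) * ((Q⁻¹ : Sˣ) : S) := by
        simp only [mul_assoc, Units.mul_inv_cancel_left, Units.mul_inv, mul_one]
    _ = 1 := by rw [h3, mul_one, Units.mul_inv]

end Pool.Agent.MP_5ac330_al.OE
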