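import Mathlib

set_option autoImplicit false

/-!
# Matrices with commuting entries

For a commutative ring `C`, a `C`-module `M` and a square matrix `X` over `C` which is surjective on
`M ^ n`, multiplication by `det X` is surjective on `M`.
-/

namespace Pool.Agent.MP_5ac330_al.CE

open Matrix

variable {C M : Type*} [CommRing C] [AddCommGroup M] [Module C M]

/-- descent on the size of the minors -/
theorem step {n : ℕ} (X : Matrix (Fin n) (Fin n) C)
    (hX : ∀ v : Fin n → M, ∃ w : Fin n → M, ∀ i, ∑ j, X i j • w j = v i) (N : Submodule C M)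
    {k : ℕ} (hk : k < n)
    (h : ∀ r c : Fin (k + 1) → Fin n, ∀ m : M, det (X.submatrix r c) • m ∈ N)
    (r c : Fin k → Fin n) (m : M) : det (X.submatrix r c) • m ∈ N := by
  obtain ⟨i0, hi0⟩ : ∃ i0, ∀ a, r a ≠ i0 := by
    by_contra hcon
    push Not at hcon
    have hs : Function.Surjective r := fun i => hcon i
    have := Fintype.card_le_of_surjective r hs
    simp at this
    omega
  obtain ⟨w, hw⟩ := hX (Pi.single i0 m)
  set r' : Fin (k + 1) → Fin n := Fin.cons i0 r with hr'
  have h1 : ∑ j, det (X.submatrix r' (Fin.cons j c)) • w j ∈ N :=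
    Submodule.sum_mem _ fun j _ => h _ _ _
  have h2 : ∑ j, det (X.submatrix r' (Fin.cons j c)) • w j = det (X.submatrix r c) • m := by
    calc ∑ j, det (X.submatrix r' (Fin.cons j c)) • w j
        = ∑ j, ∑ a : Fin (k + 1), ((-1) ^ (a : ℕ) * X (r' a) j *
            det (X.submatrix (r' ∘ a.succAbove) c)) • w j := by
          refine Finset.sum_congr rfl fun j _ => ?_
          rw [det_succ_column_zero, Finset.sum_smul]
          refine Finset.sum_congr rfl fun a _ => ?_
          congr 2
      _ = ∑ a : Fin (k + 1), ∑ j, ((-1) ^ (a : ℕ) *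
            det (X.submatrix (r' ∘ a.succAbove) c)) • (X (r' a) j • w j) := by
          rw [Finset.sum_comm]
          refine Finset.sum_congr rfl fun a _ => Finset.sum_congr rfl fun j _ => ?_
          rw [smul_smul]
          congr 1
          ring
      _ = ∑ a : Fin (k + 1), ((-1) ^ (a : ℕ) * det (X.submatrix (r' ∘ a.succAbove) c)) •
            (Pi.single i0 m : Fin n → M) (r' a) := by
          refine Finset.sum_congr rfl fun a _ => ?_
          rw [← Finset.smul_sum, hw]
      _ = det (X.submatrix r c) • m := by
          rw [Fin.sum_univ_succ, Finset.sum_eq_zero]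
          · have e : r' ∘ (0 : Fin (k + 1)).succAbove = r := by
              funext a
              simp [hr']
            rw [e]
            simp [hr']
          · intro a _
            have : r' a.succ ≠ i0 := by simpa [hr'] using hi0 a
            rw [Pi.single_eq_of_ne this, smul_zero]
  rwa [h2] at h1

/-- **Surjective matrices have surjective determinant.** -/
theorem det_surj {n : ℕ} (X : Matrix (Fin n) (Fin n) C)
    (hX : ∀ v : Fin n → M, ∃ w : Fin n → M, ∀ i, ∑ j, X i j • w j = v i) (m : M) :
    ∃ z : M, det X • z = m := by
  set N : Submodule C M := LinearMap.range (LinearMap.lsmul C M (det X)) with hN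
  have key : ∀ l ≤ n, ∀ r c : Fin (n - l) → Fin n, ∀ m : M, det (X.submatrix r c) • m ∈ N := by
    intro l
    induction l with
    | zero =>
      intro _ r c m
      have e : X.submatrix r c = (1 : Matrix (Fin n) (Fin n) C).submatrix r id * X *
          (1 : Matrix (Fin n) (Fin n) C).submatrix id c := by
        ext i j
        simp [Matrix.mul_apply, Matrix.one_apply]
      have e' : det (X.submatrix r c) = det X *
          (det ((1 : Matrix (Fin n) (Fin n) C).submatrix r id) *
            det ((1 : Matrix (Fin n) (Fin n) C).submatrix id c)) := by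
        rw [e, det_mul, det_mul]
        ring
      rw [e', mul_smul]
      exact ⟨_, rfl⟩
    | succ l ih =>
      intro hl
      have h1 := ih (by omega)
      have h2 : n - l = (n - (l + 1)) + 1 := by omega
      rw [h2] at h1
      exact step X hX N (by omega) h1
  have h0 := key n le_rfl
  rw [Nat.sub_self] at h0
  have h1 := h0 (fun a => a.elim0) (fun a => a.elim0) m
  rw [det_isEmpty, one_smul] at h1
  obtain ⟨z, hz⟩ := h1
  exact ⟨z, hz⟩

end Pool.Agent.MP_5ac330_al.CE
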